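import Pool.Agent.H92.EHD.TR
import Pool.Agent.H41.EQ.IB
import Pool.Agent.H88.EQ.IE

/-!
# MP_75a732_an: row RUN
-/

set_option autoImplicit false

open MeasureTheory Pool.Agent.H92.EQ Pool.Agent.H92.EHD
open scoped ComplexConjugate

namespace Pool.Agent.H29.EHD

/-- the density of a Gaussian vector -/
theorem prod_gs {N : ℕ} (v : Fin N → ℂ) :
    ∏ j, gs 1 (v j) = (∏ _j : Fin N, Real.pi⁻¹) * Real.exp (-∑ j, ‖v j‖ ^ 2) := by
  unfold gs
  rw [Finset.prod_mul_distrib, mul_one, ← Finset.sum_neg_distrib, Real.exp_sum]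
  congr 1
  refine Finset.prod_congr rfl fun j _ => ?_
  congr 1
  rw [div_one]

theorem meas_gs {n N : ℕ} :
    Measurable fun X : Fin n → Fin N → ℂ => ENNReal.ofReal (∏ i, ∏ j, gs 1 (X i j)) := by
  unfold gs
  fun_prop

theorem pf_RUN : T_RUN := by
  intro m y hy
  have hy0 : y ≠ 0 := by
    intro h
    rw [h] at hy
    simp [nsq] at hy
  have he0 : (Pi.single 0 1 : Fin (m + 1) → ℂ) ≠ 0 := by
    intro h
    have := congrFun h 0
    simp at this
  obtain ⟨U, c, hU, hc, hUy⟩ := Pool.Agent.H88.EQ.IErow.exists_unitary hy0 he0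
  have hcn : ‖c‖ ^ 2 = 1 := by
    have h1 := Pool.Agent.H88.EQ.IErow.nsq_unitary hU y
    rw [hUy, hy] at h1
    unfold nsq at h1
    rw [Finset.sum_eq_single 0] at h1
    · simpa using h1
    · intro b _ hb
      simp [Pi.single_eq_of_ne hb]
    · intro h
      exact absurd (Finset.mem_univ _) h
  have hcc : conj c * c = 1 := by
    rw [mul_comm, Complex.mul_conj, Complex.normSq_eq_norm_sq, hcn]
    simp
  have hcc2 : c * conj c = 1 := by rw [mul_comm, hcc]
  have hV : (conj c • U) * (conj c • U).conjTranspose = 1 := by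
    rw [Matrix.conjTranspose_smul, Matrix.smul_mul, Matrix.mul_smul, smul_smul, hU]
    have h1 : conj c * star (conj c) = 1 := by
      rw [Complex.star_def, Complex.conj_conj]
      exact hcc
    rw [h1, one_smul]
  refine ⟨conj c • U, hV, mul_eq_one_comm.1 hV, ?_, ?_⟩
  · rw [Matrix.smul_mulVec, hUy, smul_smul, hcc, one_smul]
  · intro n f hf
    set V : Matrix (Fin (m + 1)) (Fin (m + 1)) ℂ := conj c • U with hVd
    have mp : MeasurePreserving
        (fun X : Fin n → Fin (m + 1) → ℂ => fun i => Matrix.vecMul (X i) V) volume volume :=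
      volume_preserving_pi (α' := fun _ : Fin n => (Fin (m + 1) → ℂ))
        (β' := fun _ : Fin n => (Fin (m + 1) → ℂ))
        (f := fun _ x => Matrix.vecMul x V) fun _ => Pool.Agent.H41.EQ.row_mp V hV
    have h2 := mp.lintegral_comp (meas_gs.mul hf)
    refine Eq.trans (lintegral_congr fun X => ?_) h2
    show _ = ENNReal.ofReal (∏ i, ∏ j, gs 1 ((Matrix.vecMul (X i) V) j)) *
      f (fun i => Matrix.vecMul (X i) V)
    have h3 : ∀ i, ∏ j, gs 1 ((Matrix.vecMul (X i) V) j) = ∏ j, gs 1 (X i j) := by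
      intro i
      rw [prod_gs, prod_gs, Pool.Agent.H41.EQ.nsq_row V hV]
    simp only [h3]
    rfl

end Pool.Agent.H29.EHD
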